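import Mathlib

/-!
# MP_d7bb9e_an: valence of the gradient of a truncated convex Morse function

For every `n ≥ 1` the radial function `f(x) = |x|⁶ - 15 |x|⁴ + 120 |x|²` satisfies the
hypotheses (H), and both equalities fail for it.
-/

namespace Pool.Agent.Results.MP_d7bb9e_an.Valence

open Set Filter Topology Cardinal
open scoped RealInnerProductSpace

variable {n : ℕ}

/-- `ℝⁿ` with its Euclidean structure -/
abbrev E (n : ℕ) := EuclideanSpace ℝ (Fin n)

/-- truncation of `f` at level `q` -/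
def trunc (q : ℝ) (f : (E n) → ℝ) : (E n) → ℝ := fun x => max q (f x)

/-- `q ≥ inf f` (in the extended reals) and `T_r(f)` is convex for every `r ≥ q` -/
def GoodLevel (f : (E n) → ℝ) (q : ℝ) : Prop :=
  (⨅ x, (f x : EReal)) ≤ (q : EReal) ∧ ∀ r ≥ q, ConvexOn ℝ univ (trunc r f)

/-- `f` is truncated convex -/
def TruncatedConvex (f : (E n) → ℝ) : Prop := ∃ q : ℝ, GoodLevel f q

/-- the smallest convexity level, as an extended real -/
noncomputable def scl (f : (E n) → ℝ) : EReal :=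
  sInf ((fun q : ℝ => (q : EReal)) '' {q : ℝ | GoodLevel f q})

/-- the Hessian bilinear form -/
noncomputable def hess (f : (E n) → ℝ) (x v w : E n) : ℝ := fderiv ℝ (fderiv ℝ f) x v w

/-- the set of points where the Hessian is positive definite -/
def HessPos (f : (E n) → ℝ) : Set (E n) := {x | ∀ v, v ≠ 0 → 0 < hess f x v v}

/-- the critical set -/
def Crit (f : (E n) → ℝ) : Set (E n) := {x | gradient f x = 0}

/-- `f` is Morse -/
def IsMorse (f : (E n) → ℝ) : Prop :=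
  ∀ x ∈ Crit f, ∀ v, (∀ w, hess f x v w = 0) → v = 0

/-- the hypotheses (H), with `scl(f) = c` -/
structure Hyp (f : (E n) → ℝ) (c : ℝ) : Prop where
  contDiff : ContDiff ℝ 2 f
  morse : IsMorse f
  not_convex : ¬ ConvexOn ℝ univ f
  truncatedConvex : TruncatedConvex f
  scl_eq : scl f = (c : EReal)
  scl_mem : c ∈ range f
  scl_regular : f ⁻¹' {c} ∩ Crit f = ∅
  superlevel : {x | c < f x} ⊆ HessPos f

/-- the valence of a map -/
noncomputable def Val (F : (E n) → (E n)) : Cardinal := ⨆ y : E n, #(F ⁻¹' {y})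

/-- the one variable profile -/
def g (ρ : ℝ) : ℝ := ρ ^ 6 - 15 * ρ ^ 4 + 120 * ρ ^ 2

/-- the example -/
noncomputable def ex (n : ℕ) (x : E n) : ℝ := g ‖x‖

lemma ex_eq (x : E n) : ex n x = (‖x‖ ^ 2) ^ 3 - 15 * (‖x‖ ^ 2) ^ 2 + 120 * ‖x‖ ^ 2 := by
  unfold ex g; ring

lemma ex_fderiv (x : E n) :
    HasFDerivAt (ex n) ((6 * ((‖x‖ ^ 2) ^ 2 - 10 * ‖x‖ ^ 2 + 40)) • innerSL ℝ x) x := by
  have h1 : HasFDerivAt (fun x : E n => ‖x‖ ^ 2) (2 • innerSL ℝ x) x :=
    (hasStrictFDerivAt_norm_sq x).hasFDerivAt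
  have h2 : HasDerivAt (fun t : ℝ => t ^ 3 - 15 * t ^ 2 + 120 * t)
      (3 * (‖x‖ ^ 2) ^ 2 - 15 * (2 * (‖x‖ ^ 2)) + 120) (‖x‖ ^ 2) := by
    have := ((hasDerivAt_pow 3 (‖x‖ ^ 2)).fun_sub
      ((hasDerivAt_pow 2 (‖x‖ ^ 2)).const_mul 15)).fun_add
      ((hasDerivAt_id' (‖x‖ ^ 2)).const_mul 120)
    exact this.congr_deriv (by norm_num)
  have h3 := h2.comp_hasFDerivAt x h1
  have h4 : (ex n) = (fun t : ℝ => t ^ 3 - 15 * t ^ 2 + 120 * t) ∘ (fun x : E n => ‖x‖ ^ 2) := by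
    ext y; rw [ex_eq]; rfl
  rw [h4]
  refine h3.congr_fderiv ?_
  ext v
  simp only [smul_apply, smul_eq_mul, nsmul_eq_mul]
  push_cast
  ring

lemma ex_gradient (x : E n) :
    gradient (ex n) x = (6 * ((‖x‖ ^ 2) ^ 2 - 10 * ‖x‖ ^ 2 + 40)) • x := by
  apply HasGradientAt.gradient
  rw [hasGradientAt_iff_hasFDerivAt]
  refine (ex_fderiv x).congr_fderiv ?_
  ext v
  simp

lemma ex_contDiff : ContDiff ℝ 2 (ex n) := by
  have : (ex n) = fun x : E n => (‖x‖ ^ 2) ^ 3 - 15 * (‖x‖ ^ 2) ^ 2 + 120 * ‖x‖ ^ 2 := by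
    ext x; exact ex_eq x
  rw [this]
  have h : ContDiff ℝ 2 (fun x : E n => ‖x‖ ^ 2) := contDiff_norm_sq ℝ
  fun_prop

lemma ex_hess (x v w : E n) :
    hess (ex n) x v w = 6 * ((‖x‖ ^ 2) ^ 2 - 10 * ‖x‖ ^ 2 + 40) * ⟪v, w⟫
      + 12 * (2 * ‖x‖ ^ 2 - 10) * ⟪x, v⟫ * ⟪x, w⟫ := by
  have hd : DifferentiableAt ℝ (fderiv ℝ (ex n)) x := by
    have : ContDiff ℝ 1 (fderiv ℝ (ex n)) := ex_contDiff.fderiv_right (by norm_num)
    exact (this.differentiable (by norm_num)).differentiableAt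
  have h1 : HasFDerivAt (fun y => fderiv ℝ (ex n) y w) ((fderiv ℝ (fderiv ℝ (ex n)) x).flip w) x := by
    have := hd.hasFDerivAt.clm_apply (hasFDerivAt_const w x)
    simpa using this
  have h2 : (fun y => fderiv ℝ (ex n) y w)
      = fun y => 6 * ((‖y‖ ^ 2) ^ 2 - 10 * ‖y‖ ^ 2 + 40) * ⟪y, w⟫ := by
    ext y
    rw [(ex_fderiv y).fderiv]
    simp
  rw [h2] at h1
  have h3 : HasFDerivAt (fun x : E n => ‖x‖ ^ 2) (2 • innerSL ℝ x) x :=
    (hasStrictFDerivAt_norm_sq x).hasFDerivAt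
  have h4 : HasDerivAt (fun t : ℝ => 6 * (t ^ 2 - 10 * t + 40))
      (6 * (2 * ‖x‖ ^ 2 - 10)) (‖x‖ ^ 2) := by
    have := ((((hasDerivAt_pow 2 (‖x‖ ^ 2)).fun_sub
      ((hasDerivAt_id' (‖x‖ ^ 2)).const_mul 10)).add_const 40)).const_mul 6
    exact this.congr_deriv (by norm_num)
  have h5 := h4.comp_hasFDerivAt x h3
  have h6 : HasFDerivAt (fun y : E n => ⟪y, w⟫) (innerSL ℝ w) x := by
    have := (innerSL ℝ w).hasFDerivAt (x := x)
    have e : (fun y : E n => ⟪y, w⟫) = fun y => innerSL ℝ w y := by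
      ext y; simp [real_inner_comm]
    rw [e]; exact this
  have h7 := h5.mul h6
  have h8 := h1.unique h7
  have h9 := congrArg (fun L : (E n) →L[ℝ] ℝ => L v) h8
  simp only [ContinuousLinearMap.flip_apply, Function.comp, add_apply,
    smul_apply, innerSL_apply_apply, smul_eq_mul, nsmul_eq_mul] at h9
  unfold hess
  rw [h9, real_inner_comm w v]
  push_cast
  ring

/-! ### the profile -/

lemma g_mono {a b : ℝ} (ha : 0 ≤ a) (hab : a ≤ b) : g a ≤ g b := by
  have h1 : a ^ 2 ≤ b ^ 2 := pow_le_pow_left₀ ha hab 2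
  have h2 : g b - g a = (b ^ 2 - a ^ 2) * ((b ^ 2) ^ 2 + b ^ 2 * a ^ 2 + (a ^ 2) ^ 2
      - 15 * (b ^ 2 + a ^ 2) + 120) := by unfold g; ring
  have h3 : 0 ≤ (b ^ 2) ^ 2 + b ^ 2 * a ^ 2 + (a ^ 2) ^ 2 - 15 * (b ^ 2 + a ^ 2) + 120 := by
    nlinarith [sq_nonneg (b ^ 2 - 5), sq_nonneg (a ^ 2 - 5), sq_nonneg (b ^ 2 + a ^ 2 - 10)]
  have := mul_nonneg (sub_nonneg.mpr h1) h3
  linarith

lemma g_lt {a b : ℝ} (ha : 0 ≤ a) (hab : a < b) : g a < g b := by
  have h1 : a ^ 2 < b ^ 2 := pow_lt_pow_left₀ hab ha (by norm_num)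
  have h2 : g b - g a = (b ^ 2 - a ^ 2) * ((b ^ 2) ^ 2 + b ^ 2 * a ^ 2 + (a ^ 2) ^ 2
      - 15 * (b ^ 2 + a ^ 2) + 120) := by unfold g; ring
  have h3 : 0 < (b ^ 2) ^ 2 + b ^ 2 * a ^ 2 + (a ^ 2) ^ 2 - 15 * (b ^ 2 + a ^ 2) + 120 := by
    nlinarith [sq_nonneg (b ^ 2 - 5), sq_nonneg (a ^ 2 - 5), sq_nonneg (b ^ 2 + a ^ 2 - 10)]
  have := mul_pos (sub_pos.mpr h1) h3
  linarith

lemma g_nonneg (a : ℝ) : 0 ≤ g a := by
  have : g a = g |a| := by
    unfold g
    rw [← abs_pow a 6, ← abs_pow a 4, ← abs_pow a 2, abs_of_nonneg (by positivity : 0 ≤ a ^ 6),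
      abs_of_nonneg (by positivity : 0 ≤ a ^ 4), abs_of_nonneg (by positivity : 0 ≤ a ^ 2)]
  rw [this]
  have h := g_mono le_rfl (abs_nonneg a)
  have h0 : g 0 = 0 := by unfold g; norm_num
  linarith

lemma g_cont : Continuous g := by unfold g; fun_prop

lemma g_two : g 2 = 304 := by unfold g; norm_num

lemma g_hasDeriv (ρ : ℝ) : HasDerivAt g (6 * ρ ^ 5 - 60 * ρ ^ 3 + 240 * ρ) ρ := by
  have := ((hasDerivAt_pow 6 ρ).fun_sub ((hasDerivAt_pow 4 ρ).const_mul 15)).fun_add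
    ((hasDerivAt_pow 2 ρ).const_mul 120)
  exact this.congr_deriv (by norm_num; ring)

lemma g_hasDeriv2 (ρ : ℝ) : HasDerivAt (fun ρ : ℝ => 6 * ρ ^ 5 - 60 * ρ ^ 3 + 240 * ρ)
    (30 * ρ ^ 4 - 180 * ρ ^ 2 + 240) ρ := by
  have := (((hasDerivAt_pow 5 ρ).const_mul 6).fun_sub ((hasDerivAt_pow 3 ρ).const_mul 60)).fun_add
    ((hasDerivAt_id' ρ).const_mul 240)
  exact this.congr_deriv (by norm_num; ring)

lemma g_deriv : deriv g = fun ρ => 6 * ρ ^ 5 - 60 * ρ ^ 3 + 240 * ρ := by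
  ext ρ; exact (g_hasDeriv ρ).deriv

lemma g_convexOn : ConvexOn ℝ (Ici (2:ℝ)) g := by
  refine convexOn_of_deriv2_nonneg (convex_Ici 2) g_cont.continuousOn
    (fun x _ => (g_hasDeriv x).differentiableAt.differentiableWithinAt) ?_ ?_
  · rw [g_deriv]
    exact fun x _ => (g_hasDeriv2 x).differentiableAt.differentiableWithinAt
  · intro x hx
    rw [interior_Ici] at hx
    have hx2 : 2 < x := hx
    show 0 ≤ deriv (deriv g) x
    rw [g_deriv, (g_hasDeriv2 x).deriv]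
    have : 4 < x ^ 2 := by nlinarith
    nlinarith [mul_pos (show 0 < x ^ 2 - 4 by linarith) (show 0 < x ^ 2 - 2 by linarith)]

/-! ### convexity of the truncations -/

lemma trunc_convex {r : ℝ} (hr : 304 ≤ r) : ConvexOn ℝ univ (trunc r (ex n)) := by
  -- choose the radius
  obtain ⟨ρ, hρ2, hρ⟩ : ∃ ρ, 2 ≤ ρ ∧ g ρ = r := by
    have hbig : r ≤ g (2 + r) := by
      unfold g
      have h1 : 0 ≤ (2 + r) ^ 2 * (((2 + r) ^ 2) ^ 2 - 15 * (2 + r) ^ 2 + 60) := by
        apply mul_nonneg (by positivity)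
        have : 15 ≤ (2 + r) ^ 2 := by nlinarith
        nlinarith
      nlinarith
    have := intermediate_value_Icc (show (2:ℝ) ≤ 2 + r by linarith) g_cont.continuousOn
    obtain ⟨ρ, hρ, h⟩ := this ⟨by rw [g_two]; exact hr, hbig⟩
    exact ⟨ρ, hρ.1, h⟩
  have e : trunc r (ex n) = g ∘ fun x : E n => max ρ ‖x‖ := by
    ext x
    simp only [trunc, ex, Function.comp]
    rcases le_total ρ ‖x‖ with h | h
    · rw [max_eq_right h, max_eq_right]
      rw [← hρ]; exact g_mono (by linarith) h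
    · rw [max_eq_left h, hρ, max_eq_left]
      rw [← hρ]; exact g_mono (norm_nonneg _) h
  rw [e]
  have hc : ConvexOn ℝ univ (fun x : E n => max ρ ‖x‖) :=
    (convexOn_const ρ convex_univ).sup convexOn_univ_norm
  have himg : (fun x : E n => max ρ ‖x‖) '' univ ⊆ Ici 2 := by
    rintro _ ⟨x, -, rfl⟩
    exact hρ2.trans (le_max_left _ _)
  refine ⟨convex_univ, fun x _ y _ a b ha hb hab => ?_⟩
  have h1 := hc.2 (mem_univ x) (mem_univ y) ha hb hab
  have h2 := g_convexOn.2 (himg ⟨x, mem_univ x, rfl⟩) (himg ⟨y, mem_univ y, rfl⟩) ha hb hab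
  have h3 : g (max ρ ‖a • x + b • y‖) ≤ g (a • max ρ ‖x‖ + b • max ρ ‖y‖) :=
    g_mono (le_trans (by linarith) (le_max_left _ _)) h1
  exact h3.trans h2

lemma trunc_not_convex (hn : 1 ≤ n) {r : ℝ} (hr : r < 304) :
    ¬ ConvexOn ℝ univ (trunc r (ex n)) := by
  intro hc
  obtain ⟨e, he⟩ : ∃ e : E n, ‖e‖ = 1 := ⟨EuclideanSpace.single ⟨0, hn⟩ 1, by simp⟩
  have hval : ∀ ρ : ℝ, 0 ≤ ρ → trunc r (ex n) (ρ • e) = max r (g ρ) := by
    intro ρ hρ
    simp only [trunc, ex, norm_smul, he, mul_one, Real.norm_eq_abs, abs_of_nonneg hρ]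
  -- choose δ
  have hcont : Tendsto (fun δ : ℝ => g (2 - 2 * δ)) (𝓝[>] 0) (𝓝 (g (2 - 2 * 0))) := by
    have : Continuous fun δ : ℝ => g (2 - 2 * δ) := g_cont.comp (by fun_prop)
    exact (this.tendsto 0).mono_left nhdsWithin_le_nhds
  have hev : ∀ᶠ δ in 𝓝[>] (0:ℝ), r < g (2 - 2 * δ) := by
    apply hcont.eventually_const_lt
    simpa [g_two] using hr
  have hev2 : ∀ᶠ δ in 𝓝[>] (0:ℝ), δ < 1 / 10 :=
    (eventually_lt_nhds (by norm_num)).filter_mono nhdsWithin_le_nhds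
  obtain ⟨δ, ⟨h1, h2⟩, h3⟩ := ((hev.and hev2).and self_mem_nhdsWithin).exists
  have hδ : 0 < δ := h3
  have hmid := hc.2 (mem_univ ((2 - 2 * δ) • e)) (mem_univ ((2:ℝ) • e))
    (show (0:ℝ) ≤ 1 / 2 by norm_num) (show (0:ℝ) ≤ 1 / 2 by norm_num) (by norm_num)
  have e1 : (1 / 2 : ℝ) • (2 - 2 * δ) • e + (1 / 2 : ℝ) • (2:ℝ) • e = (2 - δ) • e := by
    rw [smul_smul, smul_smul, ← add_smul]; congr 1; ring
  rw [e1, hval _ (by linarith), hval _ (by linarith), hval _ (by norm_num),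
    max_eq_right h1.le, g_two, max_eq_right hr.le] at hmid
  have h4 : g (2 - δ) ≤ max r (g (2 - δ)) := le_max_right _ _
  simp only [smul_eq_mul] at hmid
  have h5 : g (2 - δ) - (1 / 2 * g (2 - 2 * δ) + 1 / 2 * 304)
      = δ ^ 3 * (120 - 315 * δ + 180 * δ ^ 2 - 31 * δ ^ 3) := by
    unfold g; ring
  have h6 : 0 < 120 - 315 * δ + 180 * δ ^ 2 - 31 * δ ^ 3 := by
    have : δ ^ 3 < 1 := by
      have : δ ^ 3 < 1 ^ 3 := pow_lt_pow_left₀ (by linarith) hδ.le (by norm_num)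
      simpa using this
    nlinarith [sq_nonneg δ]
  have h7 : 0 < δ ^ 3 * (120 - 315 * δ + 180 * δ ^ 2 - 31 * δ ^ 3) := by positivity
  linarith

lemma good_iff (hn : 1 ≤ n) (q : ℝ) : GoodLevel (ex n) q ↔ 304 ≤ q := by
  constructor
  · rintro ⟨-, h⟩
    by_contra hq
    push Not at hq
    exact trunc_not_convex hn hq (h q le_rfl)
  · intro hq
    refine ⟨?_, fun r hr => trunc_convex (hq.trans hr)⟩
    refine (iInf_le _ (0 : E n)).trans ?_
    have : ex n 0 = 0 := by simp [ex, g]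
    rw [this]
    exact_mod_cast (by linarith : (0:ℝ) ≤ q)

lemma hess_pos_of_large {x : E n} (hx : 4 < ‖x‖ ^ 2) : x ∈ HessPos (ex n) := by
  intro v hv
  rw [ex_hess]
  have hv0 : 0 < ‖v‖ ^ 2 := by positivity
  rw [real_inner_self_eq_norm_sq]
  have hcs : ⟪x, v⟫ ^ 2 ≤ ‖x‖ ^ 2 * ‖v‖ ^ 2 := by
    have := abs_real_inner_le_norm x v
    have h2 := pow_le_pow_left₀ (abs_nonneg _) this 2
    rw [sq_abs] at h2
    nlinarith
  set s := ‖x‖ ^ 2
  set i := ⟪x, v⟫
  have hi : 0 ≤ i ^ 2 := sq_nonneg _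
  have e : 12 * (2 * s - 10) * i * i = 24 * (s - 5) * i ^ 2 := by ring
  rw [e]
  rcases le_total s 5 with h | h
  · have h1 : 24 * (5 - s) * i ^ 2 ≤ 24 * (5 - s) * (s * ‖v‖ ^ 2) :=
      mul_le_mul_of_nonneg_left hcs (by linarith)
    have h2 : 0 < (30 * (s - 2) * (s - 4)) * ‖v‖ ^ 2 := by
      apply mul_pos _ hv0
      have : 0 < (s - 2) * (s - 4) := mul_pos (by linarith) (by linarith)
      linarith
    nlinarith
  · have h1 : 0 ≤ 24 * (s - 5) * i ^ 2 := by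
      apply mul_nonneg _ hi; linarith
    have h2 : 0 < 6 * (s ^ 2 - 10 * s + 40) * ‖v‖ ^ 2 := by
      apply mul_pos _ hv0
      nlinarith [sq_nonneg (s - 5)]
    linarith

lemma hess_pos_small_iff {x : E n} (hx : ‖x‖ ^ 2 ≤ 4) :
    x ∈ HessPos (ex n) ↔ ‖x‖ ^ 2 < 2 := by
  constructor
  · intro h
    by_cases hx0 : x = 0
    · rw [hx0]; norm_num
    · have h1 := h x hx0
      rw [ex_hess, real_inner_self_eq_norm_sq] at h1
      have hs : 0 < ‖x‖ ^ 2 := by positivity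
      set s := ‖x‖ ^ 2
      have h2 : 6 * (s ^ 2 - 10 * s + 40) * s + 12 * (2 * s - 10) * s * s
          = s * (30 * (s - 2) * (s - 4)) := by ring
      rw [h2] at h1
      have h3 : 0 < 30 * (s - 2) * (s - 4) := pos_of_mul_pos_right h1 hs.le
      by_contra h4
      push Not at h4
      nlinarith [mul_nonneg (sub_nonneg.mpr h4) (sub_nonneg.mpr hx)]
  · intro h v hv
    rw [ex_hess]
    have hv0 : 0 < ‖v‖ ^ 2 := by positivity
    rw [real_inner_self_eq_norm_sq]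
    have hcs : ⟪x, v⟫ ^ 2 ≤ ‖x‖ ^ 2 * ‖v‖ ^ 2 := by
      have := abs_real_inner_le_norm x v
      have h2 := pow_le_pow_left₀ (abs_nonneg _) this 2
      rw [sq_abs] at h2
      nlinarith
    have hs0 : 0 ≤ ‖x‖ ^ 2 := by positivity
    set s := ‖x‖ ^ 2
    set i := ⟪x, v⟫
    have e : 12 * (2 * s - 10) * i * i = 24 * (s - 5) * i ^ 2 := by ring
    rw [e]
    have h1 : 24 * (5 - s) * i ^ 2 ≤ 24 * (5 - s) * (s * ‖v‖ ^ 2) :=
      mul_le_mul_of_nonneg_left hcs (by linarith)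
    have h2 : 0 < (30 * (2 - s) * (4 - s)) * ‖v‖ ^ 2 := by
      apply mul_pos _ hv0
      have : 0 < (2 - s) * (4 - s) := mul_pos (by linarith) (by linarith)
      linarith
    nlinarith

lemma crit_eq : Crit (ex n) = {0} := by
  ext x
  simp only [Crit, mem_ofPred_eq, mem_singleton_iff, ex_gradient, smul_eq_zero]
  constructor
  · rintro (h | h)
    · exfalso
      nlinarith [sq_nonneg (‖x‖ ^ 2 - 5)]
    · exact h
  · intro h; right; exact h

lemma set_eq : HessPos (ex n) \ {x | 304 < ex n x} = Metric.ball (0 : E n) (Real.sqrt 2) := by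
  ext x
  simp only [Set.mem_sdiff, mem_ofPred_eq, not_lt, Metric.mem_ball, dist_zero_right]
  have h1 : ‖x‖ < Real.sqrt 2 ↔ ‖x‖ ^ 2 < 2 := Real.lt_sqrt (norm_nonneg x)
  rw [h1]
  have h4 : ex n x ≤ 304 ↔ ‖x‖ ≤ 2 := by
    unfold ex
    constructor
    · intro h
      by_contra h2
      push Not at h2
      have := g_lt (by norm_num) h2
      rw [g_two] at this
      linarith
    · intro h
      have := g_mono (norm_nonneg x) h
      rwa [g_two] at this
  rw [h4]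
  constructor
  · rintro ⟨h2, h3⟩
    exact (hess_pos_small_iff (by nlinarith [norm_nonneg x])).mp h2
  · intro h2
    exact ⟨(hess_pos_small_iff (by linarith)).mpr h2, by nlinarith [norm_nonneg x]⟩

lemma ex_hyp (hn : 1 ≤ n) : Hyp (ex n) 304 where
  contDiff := ex_contDiff
  morse := by
    intro x hx v hv
    rw [crit_eq] at hx
    have hx0 : x = 0 := hx
    have := hv v
    rw [hx0, ex_hess, real_inner_self_eq_norm_sq] at this
    simp at this
    exact this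
  not_convex := by
    have h := trunc_not_convex (n := n) hn (show (0:ℝ) < 304 by norm_num)
    have e : trunc 0 (ex n) = ex n := by
      ext x
      exact max_eq_right (g_nonneg _)
    rwa [e] at h
  truncatedConvex := ⟨304, (good_iff hn 304).mpr le_rfl⟩
  scl_eq := by
    unfold scl
    apply le_antisymm
    · exact sInf_le ⟨304, (good_iff hn 304).mpr le_rfl, rfl⟩
    · apply le_sInf
      rintro _ ⟨q, hq, rfl⟩
      exact EReal.coe_le_coe_iff.mpr ((good_iff hn q).mp hq)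
  scl_mem := by
    refine ⟨(2:ℝ) • EuclideanSpace.single ⟨0, hn⟩ 1, ?_⟩
    simp only [ex, norm_smul]
    simp [g_two]
  scl_regular := by
    rw [crit_eq]
    ext x
    simp only [mem_inter_iff, mem_preimage, mem_singleton_iff, mem_empty_iff_false, iff_false,
      not_and]
    rintro h rfl
    simp [ex, g] at h
  superlevel := by
    intro x hx
    have hx' : 304 < g ‖x‖ := hx
    apply hess_pos_of_large
    by_contra h
    push Not at h
    have h2 : ‖x‖ ≤ 2 := by nlinarith [norm_nonneg x]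
    have := g_mono (norm_nonneg x) h2
    rw [g_two] at this
    linarith

lemma two_preimages (hn : 1 ≤ n) : ∃ x y : E n, x ≠ y ∧ gradient (ex n) x = gradient (ex n) y := by
  obtain ⟨e, he⟩ : ∃ e : E n, ‖e‖ = 1 := ⟨EuclideanSpace.single ⟨0, hn⟩ 1, by simp⟩
  have hcont : Continuous fun ρ : ℝ => 6 * ρ ^ 5 - 60 * ρ ^ 3 + 240 * ρ := by fun_prop
  obtain ⟨ρ, hρ, hρv⟩ := intermediate_value_Icc (show (0:ℝ) ≤ 7 / 5 by norm_num)
    hcont.continuousOn (show (192 : ℝ) ∈ Icc _ _ by constructor <;> norm_num)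
  simp only at hρv
  refine ⟨ρ • e, (2:ℝ) • e, ?_, ?_⟩
  · intro h
    have := congrArg norm h
    simp only [norm_smul, he, mul_one, Real.norm_eq_abs, abs_of_nonneg hρ.1] at this
    norm_num at this
    have := hρ.2
    linarith
  · rw [ex_gradient, ex_gradient, smul_smul, smul_smul]
    congr 1
    simp only [norm_smul, he, mul_one, Real.norm_eq_abs, sq_abs]
    have e1 : 6 * ((ρ ^ 2) ^ 2 - 10 * ρ ^ 2 + 40) * ρ = 192 := by rw [← hρv]; ring
    rw [e1]; norm_num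

/-- **MP_d7bb9e_an, Q1 (disproof).** In every dimension `n ≥ 1` there is a function `f` which
satisfies the hypotheses (H) (with `scl(f) = c`) and for which both equalities fail. -/
theorem result (n : ℕ) (hn : 1 ≤ n) : ∃ (f : (E n) → ℝ) (c : ℝ), Hyp f c ∧
    Val (gradient f) ≠ #(Crit f) ∧
    #(Crit f) ≠ #(ConnectedComponents ↥(HessPos f \ {x | c < f x})) + 1 := by
  refine ⟨ex n, 304, ex_hyp hn, ?_, ?_⟩
  · rw [crit_eq]
    obtain ⟨x, y, hxy, hg⟩ := two_preimages (n := n) hn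
    have h1 : 1 < #(gradient (ex n) ⁻¹' {gradient (ex n) x}) := by
      rw [Cardinal.one_lt_iff_nontrivial]
      exact ⟨⟨x, rfl⟩, ⟨y, hg.symm⟩, fun h => hxy (congrArg Subtype.val h)⟩
    have h2 : #(gradient (ex n) ⁻¹' {gradient (ex n) x}) ≤ Val (gradient (ex n)) :=
      le_ciSup Cardinal.bddAbove_of_small (gradient (ex n) x)
    have h3 : #({0} : Set (E n)) = 1 := Cardinal.mk_singleton _
    rw [h3]
    exact (h1.trans_le h2).ne'
  · rw [crit_eq, set_eq]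
    have hconn : IsConnected (Metric.ball (0 : E n) (Real.sqrt 2)) := by
      refine (convex_ball _ _).isConnected ⟨0, Metric.mem_ball_self (by positivity)⟩
    have : ConnectedSpace ↥(Metric.ball (0 : E n) (Real.sqrt 2)) :=
      isConnected_iff_connectedSpace.mp hconn
    have h1 : #(ConnectedComponents ↥(Metric.ball (0 : E n) (Real.sqrt 2))) = 1 := by
      rw [Cardinal.eq_one_iff_unique]
      exact ⟨inferInstance, inferInstance⟩
    rw [h1]
    have h3 : #({0} : Set (E n)) = 1 := Cardinal.mk_singleton _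
    rw [h3]
    norm_num

end Pool.Agent.Results.MP_d7bb9e_an.Valence
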